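import Pool.Agent.H992.SF.Defs
import Pool.Agent.H992.LB.Rig

/-!
# SF/INJ: characters separate integrable densities
-/

set_option autoImplicit false
open MeasureTheory Filter Topology Complex ProbabilityTheory
open scoped ContDiff ENNReal

namespace Pool.Agent.H740.SF

open Pool.Agent.N661.BR (MW lin shift IsStationary IsErgodic IsRandomWave)
open Pool.Agent.H992.LB (eγ eγ_norm eγ_meas val_fs fs ext_MW)
open Pool.Agent.H992.SF

theorem int_ofReal_mul {m : Measure MW} {q : MW → ℝ} (hq : Integrable q m) (τ : ℂ →₀ ℝ) :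
    Integrable (fun f => (q f : ℂ) * eγ τ f) m :=
  (hq.ofReal).mul_bdd (c := 1) (eγ_meas τ).aestronglyMeasurable
    (Eventually.of_forall fun x => (eγ_norm τ x).le)

theorem inj : S_INJ := by
  intro m hm g g' hg hg' h
  have hr : Integrable (fun f => g f - g' f) m := hg.sub hg'
  obtain ⟨r, hrm, hre⟩ := hr.aestronglyMeasurable.aemeasurable
  have hri : Integrable r m := hr.congr hre
  have h0 : ∀ τ : ℂ →₀ ℝ, ∫ f, (r f : ℂ) * eγ τ f ∂m = 0 := by
    intro τ
    have e3 : ∫ f, (r f : ℂ) * eγ τ f ∂m = ∫ f, ((g f : ℂ) * eγ τ f - (g' f : ℂ) * eγ τ f) ∂m := by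
      refine integral_congr_ae ?_
      filter_upwards [hre] with f hf
      rw [← hf]
      push_cast
      ring
    rw [e3, integral_sub (int_ofReal_mul hg τ) (int_ofReal_mul hg' τ), h τ, sub_self]
  have f1 : IsFiniteMeasure (m.withDensity fun x => ENNReal.ofReal (r x)) :=
    isFiniteMeasure_withDensity_ofReal hri.hasFiniteIntegral
  have f2 : IsFiniteMeasure (m.withDensity fun x => ENNReal.ofReal (-r x)) :=
    isFiniteMeasure_withDensity_ofReal hri.neg.hasFiniteIntegral
  have hwd : ∀ (τ : ℂ →₀ ℝ) (q : MW → ℝ), Measurable q →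
      ∫ x, eγ τ x ∂(m.withDensity fun x => ENNReal.ofReal (q x)) =
        ∫ x, ((max (q x) 0 : ℝ) : ℂ) * eγ τ x ∂m := by
    intro τ q hq
    rw [integral_withDensity_eq_integral_toReal_smul hq.ennreal_ofReal
      (Eventually.of_forall fun x => ENNReal.ofReal_lt_top)]
    refine integral_congr_ae (Eventually.of_forall fun x => ?_)
    show (ENNReal.ofReal (q x)).toReal • eγ τ x = _
    rw [ENNReal.toReal_ofReal', Complex.real_smul]
  have h5 : ∀ τ : ℂ →₀ ℝ, ∫ x, eγ τ x ∂(m.withDensity fun x => ENNReal.ofReal (r x)) =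
      ∫ x, eγ τ x ∂(m.withDensity fun x => ENNReal.ofReal (-r x)) := by
    intro τ
    have e1 : Integrable (fun x => ((max (r x) 0 : ℝ) : ℂ) * eγ τ x) m :=
      int_ofReal_mul hri.pos_part τ
    have e2 : Integrable (fun x => ((max (-r x) 0 : ℝ) : ℂ) * eγ τ x) m :=
      int_ofReal_mul hri.neg.pos_part τ
    rw [hwd τ r hrm, hwd τ (fun x => -r x) hrm.neg, ← sub_eq_zero, ← integral_sub e1 e2, ← h0 τ]
    refine integral_congr_ae (Eventually.of_forall fun x => ?_)
    show ((max (r x) 0 : ℝ) : ℂ) * eγ τ x - ((max (-r x) 0 : ℝ) : ℂ) * eγ τ x = (r x : ℂ) * eγ τ x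
    rw [← sub_mul, ← Complex.ofReal_sub]
    congr 2
    rcases le_total (r x) 0 with h | h
    · rw [max_eq_right h, max_eq_left (by linarith)]
      ring
    · rw [max_eq_left h, max_eq_right (by linarith)]
      ring
  have h6 : (m.withDensity fun x => ENNReal.ofReal (r x)) =
      (m.withDensity fun x => ENNReal.ofReal (-r x)) := by
    refine ext_MW _ _ fun k w t => ?_
    have h7 := h5 (fs w t)
    unfold eγ at h7
    simp_rw [val_fs] at h7
    exact h7
  have h7 : (fun x => ENNReal.ofReal (r x)) =ᵐ[m] fun x => ENNReal.ofReal (-r x) := by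
    have e1 : AEMeasurable (fun x => ENNReal.ofReal (r x)) m := hrm.ennreal_ofReal.aemeasurable
    have e2 : AEMeasurable (fun x => ENNReal.ofReal (-r x)) m := hrm.neg.ennreal_ofReal.aemeasurable
    exact (withDensity_eq_iff e1 e2 hri.lintegral_lt_top.ne).1 h6
  filter_upwards [h7, hre] with x hx hx2
  have h8 : r x = 0 := by
    rcases lt_trichotomy (r x) 0 with h | h | h
    · rw [ENNReal.ofReal_of_nonpos h.le] at hx
      have := ENNReal.ofReal_eq_zero.1 hx.symm
      linarith
    · exact h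
    · rw [ENNReal.ofReal_of_nonpos (show -r x ≤ 0 by linarith)] at hx
      have := ENNReal.ofReal_eq_zero.1 hx
      linarith
  linarith

end Pool.Agent.H740.SF
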